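import Pool.Agent.W462.EM.LS

/-!
Project EM, task LD: density of the block numbers.
-/

set_option autoImplicit false
open MeasureTheory Finset
open scoped ComplexConjugate

namespace Pool.Agent.W462.EM

open Pool.Agent.W278.EM Pool.Agent.Helper873.NT

/-- `n ↦ n ^ (-s)` -/
noncomputable def pw (s : ℝ) : ℕ →* ℝ where
  toFun n := (n : ℝ) ^ (-s)
  map_one' := by simp
  map_mul' m n := by
    push_cast
    rw [Real.mul_rpow (by positivity) (by positivity)]

theorem pw_apply (s : ℝ) (n : ℕ) : pw s n = (n : ℝ) ^ (-s) := rfl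

theorem pw_nonneg (s : ℝ) (n : ℕ) : 0 ≤ pw s n := by
  rw [pw_apply]; positivity

theorem blk_index {l p : ℕ} (hp : p.Prime) (h1 : Nat.nth Nat.Prime (nn l) ≤ p)
    (h2 : p < Nat.nth Nat.Prime (nn (l + 1))) :
    nn l ≤ Nat.count Nat.Prime p ∧ Nat.count Nat.Prime p < nn (l + 1) ∧
      Nat.nth Nat.Prime (Nat.count Nat.Prime p) = p := by
  have e := Nat.nth_count hp
  refine ⟨?_, ?_, e⟩
  · rw [← e] at h1
    exact (Nat.nth_le_nth Nat.infinite_setOfPred_prime).1 h1
  · rw [← e] at h2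
    exact (Nat.nth_lt_nth Nat.infinite_setOfPred_prime).1 h2

theorem blk_prime {l n p : ℕ} (hn : InBlock l n) (hp : p.Prime) (hpn : p ∣ n) : InBlock l p := by
  refine ⟨hp.two_le, fun q hq hqp => ?_⟩
  rw [(Nat.prime_dvd_prime_iff_eq hq hp).1 hqp]
  exact hn.2 p hp hpn

theorem blk_log_le {l p : ℕ} (hp : p.Prime) (hb : InBlock l p) : Real.log p ≤ 2 * 2 ^ l := by
  obtain ⟨_, h2, h3⟩ := blk_index hp (hb.2 p hp dvd_rfl).1 (hb.2 p hp dvd_rfl).2
  have h4 := log_p_le (2 ^ (l + 1)) (Nat.count Nat.Prime p) h2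
  rw [h3] at h4
  refine h4.trans (le_of_eq ?_)
  push_cast
  ring

theorem pw_prime_le {l p : ℕ} (hl : 3 ≤ l) (hp : p.Prime) (hb : InBlock l p) :
    pw (1 - 1 / 2 ^ l) p ≤ 9 / p ∧ pw (1 - 1 / 2 ^ l) p ≤ 1 / 2 := by
  have hp0 : (0 : ℝ) < p := by exact_mod_cast hp.pos
  have h1 := blk_log_le hp hb
  have h2 := log_ge hl hb
  have h8 : (8 : ℝ) ≤ 2 ^ l := by
    calc (8 : ℝ) = 2 ^ 3 := by norm_num
      _ ≤ 2 ^ l := pow_le_pow_right₀ (by norm_num) hl
  set q : ℝ := 2 ^ l with hq
  have hq0 : 0 < q := by linarith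
  have he := Real.exp_one_lt_d9
  constructor
  · rw [pw_apply, Real.rpow_def_of_pos hp0]
    have e1 : Real.log p * -(1 - 1 / q) = Real.log p / q + -Real.log p := by field_simp; ring
    rw [e1, Real.exp_add, Real.exp_neg, Real.exp_log hp0, div_eq_mul_inv]
    refine mul_le_mul_of_nonneg_right ?_ (by positivity)
    have h3 : Real.log p / q ≤ 2 := by rw [div_le_iff₀ hq0]; exact h1
    refine (Real.exp_le_exp.2 h3).trans ?_
    have h4 : Real.exp 2 = Real.exp 1 * Real.exp 1 := by rw [← Real.exp_add]; norm_num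
    rw [h4]
    have := Real.exp_pos 1
    nlinarith
  · rw [pw_apply, Real.rpow_def_of_pos hp0]
    have h3 : 1 / q ≤ 1 / 8 := one_div_le_one_div_of_le (by norm_num) h8
    have h4 : Real.log p * -(1 - 1 / q) ≤ -3 := by nlinarith
    refine (Real.exp_le_exp.2 h4).trans ?_
    rw [Real.exp_neg, inv_eq_one_div]
    refine one_div_le_one_div_of_le (by norm_num) ?_
    have := Real.add_one_le_exp (3 : ℝ)
    linarith

/-- sum of `m^-(1-a)` over numbers with all prime factors in the block -/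
theorem sum_blk (h2 : SN2) : ∃ C : ℝ, 0 < C ∧ ∀ l : ℕ, 3 ≤ l → ∀ S : Finset ℕ,
    (∀ m ∈ S, m ≠ 0 ∧ ∀ p : ℕ, p.Prime → p ∣ m → InBlock l p) →
    ∑ m ∈ S, pw (1 - 1 / 2 ^ l) m ≤ C := by
  obtain ⟨C, hC, hN⟩ := h2
  refine ⟨Real.exp (72 * C), Real.exp_pos _, ?_⟩
  intro l hl S hS
  have h8 : (8 : ℝ) ≤ 2 ^ l := by
    calc (8 : ℝ) = 2 ^ 3 := by norm_num
      _ ≤ 2 ^ l := pow_le_pow_right₀ (by norm_num) hl
  set q : ℝ := 2 ^ l with hq
  have hq0 : 0 < q := by linarith
  set P : Finset ℕ := (Finset.Ico (nn l) (nn (l + 1))).image (Nat.nth Nat.Prime) with hP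
  have hPb : ∀ k ∈ Finset.Ico (nn l) (nn (l + 1)), InBlock l (Nat.nth Nat.Prime k) := by
    intro k hk
    rw [Finset.mem_Ico] at hk
    have hp := Nat.prime_nth_prime k
    refine ⟨hp.two_le, fun r hr hrp => ?_⟩
    rw [(Nat.prime_dvd_prime_iff_eq hr hp).1 hrp]
    exact ⟨(Nat.nth_le_nth Nat.infinite_setOfPred_prime).2 hk.1,
      (Nat.nth_lt_nth Nat.infinite_setOfPred_prime).2 hk.2⟩
  have hmemP : ∀ p : ℕ, p.Prime → InBlock l p → p ∈ P := by
    intro p hp hb
    obtain ⟨a1, a2, a3⟩ := blk_index hp (hb.2 p hp dvd_rfl).1 (hb.2 p hp dvd_rfl).2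
    rw [hP, Finset.mem_image]
    exact ⟨_, Finset.mem_Ico.2 ⟨a1, a2⟩, a3⟩
  have hlt : ∀ {p : ℕ}, p.Prime → ‖pw (1 - 1 / q) p‖ < 1 := by
    intro p hp
    rw [Real.norm_eq_abs, abs_of_nonneg (pw_nonneg _ _), pw_apply]
    apply Real.rpow_lt_one_of_one_lt_of_neg
    · exact_mod_cast hp.one_lt
    · have : 1 / q ≤ 1 / 8 := one_div_le_one_div_of_le (by norm_num) h8
      linarith
  obtain ⟨hsum, hhas⟩ :=
    EulerProduct.summable_and_hasSum_factoredNumbers_prod_filter_prime_geometric hlt P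
  have hsub : ∀ m ∈ S, m ∈ Nat.factoredNumbers P := by
    intro m hm
    rw [Nat.mem_factoredNumbers]
    refine ⟨(hS m hm).1, fun p hp => ?_⟩
    have hp' := Nat.prime_of_mem_primeFactorsList hp
    exact hmemP p hp' ((hS m hm).2 p hp' (Nat.dvd_of_mem_primeFactorsList hp))
  have h3 : ∑ m ∈ S, pw (1 - 1 / q) m ≤ ∏ p ∈ P with p.Prime, (1 - pw (1 - 1 / q) p)⁻¹ := by
    let emb : S ↪ Nat.factoredNumbers P := ⟨fun m => (⟨m.1, hsub m.1 m.2⟩ : Nat.factoredNumbers P),
      fun a b hab => Subtype.ext (congrArg (fun z : Nat.factoredNumbers P => (z : ℕ)) hab)⟩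
    have h4 : ∑ m ∈ S, pw (1 - 1 / q) m =
        ∑ m ∈ S.attach.map emb, pw (1 - 1 / q) (m : ℕ) := by
      rw [Finset.sum_map, ← Finset.sum_attach]
      rfl
    rw [h4]
    exact sum_le_hasSum _ (fun m _ => pw_nonneg _ _) hhas
  refine h3.trans ?_
  have hfil : P.filter Nat.Prime = P := by
    apply Finset.filter_true_of_mem
    intro p hp
    rw [hP, Finset.mem_image] at hp
    obtain ⟨k, _, rfl⟩ := hp
    exact Nat.prime_nth_prime k
  rw [hfil, hP, Finset.prod_image (fun a _ b _ hab =>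
    Nat.nth_injective Nat.infinite_setOfPred_prime hab)]
  have h5 : ∀ k ∈ Finset.Ico (nn l) (nn (l + 1)), (1 - pw (1 - 1 / q) (Nat.nth Nat.Prime k))⁻¹ ≤
      Real.exp (36 / q * (Real.log (pr k) / pr k)) := by
    intro k hk
    have hp := Nat.prime_nth_prime k
    have hb := hPb k hk
    have hp0 : (0 : ℝ) < Nat.nth Nat.Prime k := by exact_mod_cast hp.pos
    obtain ⟨b1, b2⟩ := pw_prime_le hl hp hb
    have b3 := log_ge hl hb
    set u := pw (1 - 1 / q) (Nat.nth Nat.Prime k) with hu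
    have hu0 : 0 ≤ u := pw_nonneg _ _
    have h6 : (1 - u)⁻¹ ≤ Real.exp (2 * u) := by
      rw [inv_le_iff_one_le_mul₀ (by linarith)]
      have h7 := Real.add_one_le_exp (2 * u)
      have h9 : (2 * u + 1) * (1 - u) ≤ Real.exp (2 * u) * (1 - u) :=
        mul_le_mul_of_nonneg_right h7 (by linarith)
      nlinarith
    refine h6.trans (Real.exp_le_exp.2 ?_)
    unfold pr
    have h10 : 1 ≤ 2 / q * Real.log (Nat.nth Nat.Prime k) := by
      rw [div_mul_eq_mul_div, le_div_iff₀ hq0]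
      linarith
    have h11 : (9 : ℝ) / (Nat.nth Nat.Prime k) * 1 ≤ 9 / (Nat.nth Nat.Prime k) *
        (2 / q * Real.log (Nat.nth Nat.Prime k)) := mul_le_mul_of_nonneg_left h10 (by positivity)
    calc 2 * u ≤ 2 * (9 / (Nat.nth Nat.Prime k) *
        (2 / q * Real.log (Nat.nth Nat.Prime k))) := by linarith
      _ = _ := by ring
  refine (Finset.prod_le_prod (fun k hk => ?_) h5).trans ?_
  · have b2 := (pw_prime_le hl (Nat.prime_nth_prime k) (hPb k hk)).2
    have : 0 < 1 - pw (1 - 1 / q) (Nat.nth Nat.Prime k) := by linarith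
    positivity
  rw [← Real.exp_sum]
  apply Real.exp_le_exp.2
  rw [← Finset.mul_sum]
  have h12 : ∑ k ∈ Finset.Ico (nn l) (nn (l + 1)), Real.log (pr k) / pr k ≤
      ∑ k ∈ range (nn (l + 1)), Real.log (pr k) / pr k := by
    refine Finset.sum_le_sum_of_subset_of_nonneg ?_ fun k _ _ => ?_
    · intro k hk
      rw [Finset.mem_Ico] at hk
      exact Finset.mem_range.2 hk.2
    · unfold pr
      have := Real.log_natCast_nonneg (Nat.nth Nat.Prime k)
      positivity
  have h13 := hN (2 * q) (nn (l + 1)) (by linarith) (fun k hk => by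
    have h4 := log_p_le (2 ^ (l + 1)) k hk
    unfold pr
    refine h4.trans (le_of_eq ?_)
    rw [hq]; push_cast; ring)
  have h14 := mul_le_mul_of_nonneg_left (h12.trans h13) (show 0 ≤ 36 / q by positivity)
  refine h14.trans (le_of_eq ?_)
  field_simp
  ring

theorem sld_of (h2 : SN2) (h5 : SN5) : SLD := by
  obtain ⟨A, hA, hsum⟩ := sum_blk h2
  obtain ⟨B, hB, hN5⟩ := h5
  refine ⟨36 * B * A, by positivity, ?_⟩
  intro l hl T hT y hy
  have h8 : (8 : ℝ) ≤ 2 ^ l := by
    calc (8 : ℝ) = 2 ^ 3 := by norm_num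
      _ ≤ 2 ^ l := pow_le_pow_right₀ (by norm_num) hl
  have hsum' := hsum l hl
  set q : ℝ := 2 ^ l with hq
  have hq0 : 0 < q := by linarith
  -- remove the small exponential
  have h1 : ∀ n ∈ T, (n : ℝ) ^ (-(1 - 1 / (2 * q)) : ℝ) ≤
      pw (1 - 1 / q) n * Real.exp (-y / (2 * q)) := by
    intro n hn
    have hn0 : (0 : ℝ) < n := by
      have := (hT n hn).1
      exact_mod_cast (show 0 < n by omega)
    rw [pw_apply, Real.rpow_def_of_pos hn0, Real.rpow_def_of_pos hn0, ← Real.exp_add]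
    apply Real.exp_le_exp.2
    have e1 : Real.log n * -(1 - 1 / (2 * q)) - Real.log n * -(1 - 1 / q) =
        -(Real.log n) / (2 * q) := by
      field_simp
      ring
    have e2 : -(Real.log n) / (2 * q) ≤ -y / (2 * q) := by
      apply div_le_div_of_nonneg_right _ (by positivity)
      linarith [(hy n hn).1]
    linarith
  refine (Finset.sum_le_sum h1).trans ?_
  rw [← Finset.sum_mul]
  refine mul_le_mul_of_nonneg_right ?_ (Real.exp_pos _).le
  -- facts on n = m p
  set mf : ℕ → ℕ := fun n => n / n.minFac with hmf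
  have hfac : ∀ n ∈ T, n.minFac.Prime ∧ InBlock l n.minFac ∧ mf n * n.minFac = n ∧ mf n ≠ 0 := by
    intro n hn
    have hn2 := (hT n hn).1
    have hp : n.minFac.Prime := Nat.minFac_prime (by omega)
    have e1 : mf n * n.minFac = n := Nat.div_mul_cancel (Nat.minFac_dvd n)
    refine ⟨hp, blk_prime (hT n hn) hp (Nat.minFac_dvd n), e1, ?_⟩
    intro h0
    rw [h0, zero_mul] at e1
    omega
  set S : Finset ℕ := T.image mf with hS
  have hmaps : ∀ n ∈ T, mf n ∈ S := fun n hn => Finset.mem_image_of_mem _ hn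
  rw [← Finset.sum_fiberwise_of_maps_to hmaps]
  have hfib : ∀ m ∈ S, ∑ n ∈ T.filter (fun n => mf n = m), pw (1 - 1 / q) n ≤
      pw (1 - 1 / q) m * (36 * B / q) := by
    intro m hm
    rw [hS, Finset.mem_image] at hm
    obtain ⟨n₀, hn₀, hm₀⟩ := hm
    have hm0 : m ≠ 0 := by rw [← hm₀]; exact (hfac n₀ hn₀).2.2.2
    have hm0' : (0 : ℝ) < m := by exact_mod_cast Nat.pos_of_ne_zero hm0
    have hlog : ∀ n ∈ T.filter (fun n => mf n = m), Real.log n = Real.log m + Real.log n.minFac := by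
      intro n hn
      rw [Finset.mem_filter] at hn
      have h3 := hfac n hn.1
      have hp0 : (0 : ℝ) < n.minFac := by exact_mod_cast h3.1.pos
      rw [← Real.log_mul hm0'.ne' hp0.ne']
      congr 1
      rw [hn.2] at h3
      exact_mod_cast h3.2.2.1.symm
    have hy' : q / 4 ≤ y - Real.log m := by
      have hmem : n₀ ∈ T.filter (fun n => mf n = m) := Finset.mem_filter.2 ⟨hn₀, hm₀⟩
      have h3 := hlog n₀ hmem
      have h4 := log_ge hl (hfac n₀ hn₀).2.1
      have h6 := (hy n₀ hn₀).2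
      rw [← hq] at h4
      linarith
    -- the primes
    have hinj : Set.InjOn (fun n : ℕ => Nat.count Nat.Prime n.minFac)
        (T.filter (fun n => mf n = m) : Finset ℕ) := by
      intro n hn n' hn' hnn
      simp only [Finset.coe_filter, Set.mem_ofPred_eq] at hn hn'
      have a1 := hfac n hn.1
      have a2 := hfac n' hn'.1
      have e3 : n.minFac = n'.minFac := by
        have := congrArg (Nat.nth Nat.Prime) hnn
        simp only at this
        rwa [Nat.nth_count a1.1, Nat.nth_count a2.1] at this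
      rw [← a1.2.2.1, ← a2.2.2.1, hn.2, hn'.2, e3]
    have h9 := hN5 (y - Real.log m) ((T.filter (fun n => mf n = m)).image
      (fun n : ℕ => Nat.count Nat.Prime n.minFac)) (by linarith) (by
        intro k hk
        rw [Finset.mem_image] at hk
        obtain ⟨n, hn, rfl⟩ := hk
        have h3 := hlog n hn
        rw [Finset.mem_filter] at hn
        unfold pr
        rw [Nat.nth_count (hfac n hn.1).1]
        have h4 := hy n hn.1
        constructor <;> linarith)
    rw [Finset.sum_image hinj] at h9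
    have h10 : B / (y - Real.log m) ≤ 4 * B / q := by
      rw [div_le_div_iff₀ (by linarith) hq0]
      nlinarith
    have h11 : ∀ n ∈ T.filter (fun n => mf n = m), pw (1 - 1 / q) n ≤
        pw (1 - 1 / q) m * (9 * (1 / pr (Nat.count Nat.Prime n.minFac))) := by
      intro n hn
      rw [Finset.mem_filter] at hn
      have h3 := hfac n hn.1
      have e4 : pw (1 - 1 / q) n = pw (1 - 1 / q) m * pw (1 - 1 / q) n.minFac := by
        rw [← map_mul]
        congr 1
        rw [← hn.2]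
        exact h3.2.2.1.symm
      rw [e4]
      refine mul_le_mul_of_nonneg_left ?_ (pw_nonneg _ _)
      unfold pr
      rw [Nat.nth_count h3.1]
      have := (pw_prime_le hl h3.1 h3.2.1).1
      rw [← hq] at this
      refine this.trans (le_of_eq ?_)
      ring
    refine (Finset.sum_le_sum h11).trans ?_
    rw [← Finset.mul_sum, ← Finset.mul_sum]
    refine mul_le_mul_of_nonneg_left ?_ (pw_nonneg _ _)
    calc 9 * ∑ n ∈ T.filter (fun n => mf n = m), 1 / pr (Nat.count Nat.Prime n.minFac)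
        ≤ 9 * (4 * B / q) := mul_le_mul_of_nonneg_left (h9.trans h10) (by norm_num)
      _ = 36 * B / q := by ring
  refine (Finset.sum_le_sum hfib).trans ?_
  rw [← Finset.sum_mul]
  have h12 := hsum' S (by
    intro m hm
    rw [hS, Finset.mem_image] at hm
    obtain ⟨n, hn, rfl⟩ := hm
    refine ⟨(hfac n hn).2.2.2, fun p hp hpm => ?_⟩
    refine blk_prime (hT n hn) hp (hpm.trans ?_)
    exact Nat.div_dvd_of_dvd (Nat.minFac_dvd n))
  have h13 := mul_le_mul_of_nonneg_right h12 (show 0 ≤ 36 * B / q by positivity)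
  refine h13.trans (le_of_eq ?_)
  ring

end Pool.Agent.W462.EM
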