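import Pool.Agent.W278.EM.Stms

/-!
Project EM, task LS: large sieve for one block.
-/

set_option autoImplicit false
open MeasureTheory Finset
open scoped ComplexConjugate

namespace Pool.Agent.W462.EM

open Pool.Agent.W278.EM Pool.Agent.Helper873.NT

/-- the exponential sum with frequencies `j / q` -/
noncomputable def FF (q : ℝ) (s : Finset ℕ) (a : ℕ → ℂ) (ξ : ℝ) : ℂ :=
  ∑ j ∈ s, a j * Complex.exp ((-((j : ℂ) / q) * Complex.I) * ξ)

/-- coefficients of the derivative -/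
noncomputable def da (q : ℝ) (a : ℕ → ℂ) : ℕ → ℂ := fun j => a j * (-((j : ℂ) / q) * Complex.I)

theorem FF_deriv (q : ℝ) (s : Finset ℕ) (a : ℕ → ℂ) (ξ : ℝ) :
    HasDerivAt (FF q s a) (FF q s (da q a) ξ) ξ := by
  unfold FF
  have h : ∀ j ∈ s, HasDerivAt (fun ξ : ℝ => a j * Complex.exp ((-((j : ℂ) / q) * Complex.I) * ξ))
      (da q a j * Complex.exp ((-((j : ℂ) / q) * Complex.I) * ξ)) ξ := by
    intro j _
    have h1 : HasDerivAt (fun ξ : ℝ => (-((j : ℂ) / q) * Complex.I) * (ξ : ℂ))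
        ((-((j : ℂ) / q) * Complex.I) * 1) ξ :=
      (Complex.ofRealCLM.hasDerivAt (x := ξ)).const_mul _
    have h2 := (h1.cexp).const_mul (a j)
    refine h2.congr_deriv ?_
    unfold da
    ring
  have := HasDerivAt.fun_sum h
  exact this

theorem FF_cont (q : ℝ) (s : Finset ℕ) (a : ℕ → ℂ) : Continuous (FF q s a) := by
  unfold FF; fun_prop

theorem FF_per {q : ℝ} (hq : 0 < q) (s : Finset ℕ) (a : ℕ → ℂ) :
    Function.Periodic (FF q s a) (2 * Real.pi * q) := by
  intro ξ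
  unfold FF
  refine Finset.sum_congr rfl fun j _ => ?_
  congr 1
  have hq' : (q : ℂ) ≠ 0 := by exact_mod_cast hq.ne'
  have e : (-((j : ℂ) / q) * Complex.I) * ((ξ + 2 * Real.pi * q : ℝ) : ℂ) =
      (-((j : ℂ) / q) * Complex.I) * ξ + ((-(j : ℤ) : ℤ) : ℂ) * (2 * Real.pi * Complex.I) := by
    push_cast
    field_simp
    ring
  rw [e, Complex.exp_add, Complex.exp_int_mul_two_pi_mul_I, mul_one]

theorem exp_int {q : ℝ} (hq : 0 < q) (j k : ℕ) :
    ∫ ξ in (0 : ℝ)..(2 * Real.pi * q), Complex.exp (((((k : ℂ) - j) / q) * Complex.I) * ξ) =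
      if j = k then ((2 * Real.pi * q : ℝ) : ℂ) else 0 := by
  have hq' : (q : ℂ) ≠ 0 := by exact_mod_cast hq.ne'
  split_ifs with h
  · subst h
    simp
  · have hne : (((k : ℂ) - j) / q) * Complex.I ≠ 0 := by
      refine mul_ne_zero (div_ne_zero ?_ hq') Complex.I_ne_zero
      intro h0
      apply h
      have : (k : ℂ) = j := sub_eq_zero.1 h0
      exact_mod_cast this.symm
    rw [integral_exp_mul_complex hne]
    have e : ((((k : ℂ) - j) / q) * Complex.I) * ((2 * Real.pi * q : ℝ) : ℂ) =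
        (((k : ℤ) - (j : ℤ) : ℤ) : ℂ) * (2 * Real.pi * Complex.I) := by
      push_cast
      field_simp
    rw [e, Complex.exp_int_mul_two_pi_mul_I]
    simp

theorem parseval {q : ℝ} (hq : 0 < q) (s : Finset ℕ) (a : ℕ → ℂ) :
    ∫ ξ in (0 : ℝ)..(2 * Real.pi * q), ‖FF q s a ξ‖ ^ 2 = 2 * Real.pi * q * ∑ j ∈ s, ‖a j‖ ^ 2 := by
  have hq' : (q : ℂ) ≠ 0 := by exact_mod_cast hq.ne'
  have h1 : ((∫ ξ in (0 : ℝ)..(2 * Real.pi * q), ‖FF q s a ξ‖ ^ 2 : ℝ) : ℂ) =
      ∫ ξ in (0 : ℝ)..(2 * Real.pi * q), ∑ j ∈ s, ∑ k ∈ s, (a j * conj (a k)) *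
        Complex.exp (((((k : ℂ) - j) / q) * Complex.I) * ξ) := by
    rw [← intervalIntegral.integral_ofReal]
    refine intervalIntegral.integral_congr fun ξ _ => ?_
    have h2 : (((‖FF q s a ξ‖ ^ 2 : ℝ)) : ℂ) = FF q s a ξ * conj (FF q s a ξ) := by
      rw [Complex.mul_conj']; push_cast; rfl
    rw [h2]
    unfold FF
    rw [map_sum, Finset.sum_mul_sum]
    refine Finset.sum_congr rfl fun j _ => Finset.sum_congr rfl fun k _ => ?_
    rw [map_mul, ← Complex.exp_conj]
    have e : conj ((-((k : ℂ) / q) * Complex.I) * (ξ : ℂ)) = (((k : ℂ) / q) * Complex.I) * ξ := by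
      simp only [map_mul, map_neg, map_div₀, Complex.conj_I, Complex.conj_ofReal, Complex.conj_natCast]
      ring
    rw [e]
    have e2 : Complex.exp (((((k : ℂ) - j) / q) * Complex.I) * ξ) =
        Complex.exp ((-((j : ℂ) / q) * Complex.I) * ξ) * Complex.exp ((((k : ℂ) / q) * Complex.I) * ξ) := by
      rw [← Complex.exp_add]; congr 1; ring
    rw [e2]; ring
  have h3 : ∫ ξ in (0 : ℝ)..(2 * Real.pi * q), ∑ j ∈ s, ∑ k ∈ s, (a j * conj (a k)) *
        Complex.exp (((((k : ℂ) - j) / q) * Complex.I) * ξ) =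
      ∑ j ∈ s, ∑ k ∈ s, (a j * conj (a k)) * (if j = k then ((2 * Real.pi * q : ℝ) : ℂ) else 0) := by
    rw [intervalIntegral.integral_finsetSum]
    · refine Finset.sum_congr rfl fun j _ => ?_
      rw [intervalIntegral.integral_finsetSum]
      · refine Finset.sum_congr rfl fun k _ => ?_
        rw [intervalIntegral.integral_const_mul, exp_int hq]
      · intro k _
        apply Continuous.intervalIntegrable
        fun_prop
    · intro k _
      apply Continuous.intervalIntegrable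
      fun_prop
  have h4 : (∑ j ∈ s, ∑ k ∈ s, (a j * conj (a k)) *
      (if j = k then ((2 * Real.pi * q : ℝ) : ℂ) else 0)) =
      ((2 * Real.pi * q * ∑ j ∈ s, ‖a j‖ ^ 2 : ℝ) : ℂ) := by
    have e0 : ((2 * Real.pi * q * ∑ j ∈ s, ‖a j‖ ^ 2 : ℝ) : ℂ) =
        ((2 * Real.pi * q : ℝ) : ℂ) * ∑ j ∈ s, ((‖a j‖ ^ 2 : ℝ) : ℂ) := by
      rw [Complex.ofReal_mul (2 * Real.pi * q), Complex.ofReal_sum]
    rw [e0, Finset.mul_sum]
    refine Finset.sum_congr rfl fun j hj => ?_
    simp only [mul_ite, mul_zero]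
    rw [Finset.sum_ite_eq, if_pos hj, Complex.mul_conj']
    push_cast
    ring
  have h5 := h1.trans (h3.trans h4)
  exact_mod_cast h5

/-- Gallagher's inequality on an interval of length one -/
theorem gall {h h' : ℝ → ℂ} (hd : ∀ ξ, HasDerivAt h (h' ξ) ξ) (hc : Continuous h) (hc' : Continuous h')
    (y ξ : ℝ) (h1 : y ≤ ξ) (h2 : ξ ≤ y + 1) :
    ‖h ξ‖ ^ 2 ≤ ∫ u in y..(y + 1), (2 * ‖h u‖ ^ 2 + ‖h' u‖ ^ 2) := by
  have hg : ∀ u, HasDerivAt (fun u => ‖h u‖ ^ 2) (2 * (inner ℝ (h u) (h' u))) u := fun u =>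
    (hd u).norm_sq
  have hcd : Continuous fun u => 2 * (inner ℝ (h u) (h' u)) := by fun_prop
  have hle : ∀ u, |2 * (inner ℝ (h u) (h' u))| ≤ ‖h u‖ ^ 2 + ‖h' u‖ ^ 2 := by
    intro u
    rw [abs_mul, abs_two]
    have := abs_real_inner_le_norm (h u) (h' u)
    nlinarith [sq_nonneg (‖h u‖ - ‖h' u‖)]
  have hca : Continuous fun u => ‖h u‖ ^ 2 + ‖h' u‖ ^ 2 := by fun_prop
  set I1 := ∫ u in y..(y + 1), (‖h u‖ ^ 2 + ‖h' u‖ ^ 2) with hI1
  have hkey : ∀ u ∈ Set.Icc y (y + 1), ‖h ξ‖ ^ 2 ≤ ‖h u‖ ^ 2 + I1 := by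
    intro u hu
    have e := intervalIntegral.integral_eq_sub_of_hasDerivAt (a := u) (b := ξ)
      (fun v _ => hg v) (hcd.intervalIntegrable _ _)
    have h3 : ‖∫ v in u..ξ, 2 * (inner ℝ (h v) (h' v))‖ ≤ I1 := by
      rw [hI1]
      rcases le_total u ξ with huv | huv
      · refine (intervalIntegral.norm_integral_le_integral_norm huv).trans ?_
        refine (intervalIntegral.integral_mono_on huv (by
          apply Continuous.intervalIntegrable; fun_prop) (hca.intervalIntegrable _ _)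
          (fun v _ => hle v)).trans ?_
        exact intervalIntegral.integral_mono_interval hu.1 huv h2
          (Filter.Eventually.of_forall fun v => by simp only [Pi.zero_apply]; positivity)
          (hca.intervalIntegrable _ _)
      · rw [intervalIntegral.integral_symm, norm_neg]
        refine (intervalIntegral.norm_integral_le_integral_norm huv).trans ?_
        refine (intervalIntegral.integral_mono_on huv (by
          apply Continuous.intervalIntegrable; fun_prop) (hca.intervalIntegrable _ _)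
          (fun v _ => hle v)).trans ?_
        exact intervalIntegral.integral_mono_interval h1 huv hu.2
          (Filter.Eventually.of_forall fun v => by simp only [Pi.zero_apply]; positivity)
          (hca.intervalIntegrable _ _)
    rw [e] at h3
    have h4 := (abs_le.1 h3).2
    linarith
  have h5 : ∫ u in y..(y + 1), ‖h ξ‖ ^ 2 ≤ ∫ u in y..(y + 1), (‖h u‖ ^ 2 + I1) := by
    refine intervalIntegral.integral_mono_on (by linarith) (by simp)
      (by apply Continuous.intervalIntegrable; fun_prop) hkey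
  rw [intervalIntegral.integral_const, intervalIntegral.integral_add
    (by apply Continuous.intervalIntegrable; fun_prop) (by simp),
    intervalIntegral.integral_const] at h5
  simp only [add_sub_cancel_left, one_smul] at h5
  refine h5.trans (le_of_eq ?_)
  rw [hI1, ← intervalIntegral.integral_add (by apply Continuous.intervalIntegrable; fun_prop)
    (by apply Continuous.intervalIntegrable; fun_prop)]
  refine intervalIntegral.integral_congr fun u _ => ?_
  ring

theorem weighted {q : ℝ} (hq : 1 ≤ q) (s : Finset ℕ) (hs : ∀ j ∈ s, (j : ℝ) ≤ q) (a : ℕ → ℂ)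
    (N : ℕ) :
    ∑ y ∈ range N, Real.exp (-(y : ℝ) / (2 * q)) *
      ∫ u in (y : ℝ)..(y + 1), (2 * ‖FF q s a u‖ ^ 2 + ‖FF q s (da q a) u‖ ^ 2) ≤
      96 * q * ∑ j ∈ s, ‖a j‖ ^ 2 := by
  have hq0 : 0 < q := by linarith
  have hpi := Real.pi_gt_three
  have hpi4 := Real.pi_le_four
  set P : ℝ := 2 * Real.pi * q with hP
  have hP1 : 1 ≤ P := by rw [hP]; nlinarith
  set G : ℝ → ℝ := fun u => 2 * ‖FF q s a u‖ ^ 2 + ‖FF q s (da q a) u‖ ^ 2 with hGdef
  have hFc := FF_cont q s a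
  have hFc' := FF_cont q s (da q a)
  have hG : Continuous G := by rw [hGdef]; fun_prop
  have hG0 : ∀ u, 0 ≤ G u := fun u => by rw [hGdef]; positivity
  have hGP : Function.Periodic G P := by
    intro u
    simp only [hGdef]
    rw [FF_per hq0 s a u, FF_per hq0 s (da q a) u]
  have hint : ∫ u in (0 : ℝ)..P, G u ≤ 3 * P * ∑ j ∈ s, ‖a j‖ ^ 2 := by
    have e1 : ∫ u in (0 : ℝ)..P, G u = 2 * (P * ∑ j ∈ s, ‖a j‖ ^ 2) + P * ∑ j ∈ s, ‖da q a j‖ ^ 2 := by
      simp only [hGdef]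
      rw [intervalIntegral.integral_add (by apply Continuous.intervalIntegrable; fun_prop)
        (by apply Continuous.intervalIntegrable; fun_prop), intervalIntegral.integral_const_mul,
        parseval hq0, parseval hq0]
    have e2 : ∑ j ∈ s, ‖da q a j‖ ^ 2 ≤ ∑ j ∈ s, ‖a j‖ ^ 2 := by
      refine Finset.sum_le_sum fun j hj => ?_
      unfold da
      rw [norm_mul, norm_mul, norm_neg, norm_div, Complex.norm_I, mul_one, Complex.norm_natCast,
        Complex.norm_real, Real.norm_eq_abs, abs_of_pos hq0]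
      have h1 : (j : ℝ) / q ≤ 1 := by rw [div_le_one hq0]; exact hs j hj
      have h2 : 0 ≤ (j : ℝ) / q := by positivity
      have h3 : ‖a j‖ * ((j : ℝ) / q) ≤ ‖a j‖ * 1 := mul_le_mul_of_nonneg_left h1 (norm_nonneg _)
      rw [mul_one] at h3
      exact pow_le_pow_left₀ (by positivity) h3 2
    rw [e1]
    nlinarith
  set f : ℝ → ℝ := fun u => Real.exp (-u / (2 * q)) * G u with hf
  have hfc : Continuous f := by rw [hf]; fun_prop
  have hf0 : ∀ u, 0 ≤ f u := fun u => mul_nonneg (Real.exp_pos _).le (hG0 u)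
  have hexp2 : Real.exp (1 / (2 * q)) ≤ 2 := by
    have h1 : 1 / (2 * q) ≤ 1 / 2 := by
      apply one_div_le_one_div_of_le <;> linarith
    have h2 : Real.exp (1 / 2) ^ 2 = Real.exp 1 := by
      rw [← Real.exp_nat_mul]; norm_num
    have h3 := Real.exp_one_lt_d9
    have h4 : Real.exp (1 / 2) ≤ 2 := by
      nlinarith [Real.exp_pos (1 / 2)]
    exact (Real.exp_le_exp.2 h1).trans h4
  -- step 1
  have s1 : ∀ y : ℕ, Real.exp (-(y : ℝ) / (2 * q)) * ∫ u in (y : ℝ)..(y + 1), G u ≤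
      2 * ∫ u in (y : ℝ)..((y + 1 : ℕ) : ℝ), f u := by
    intro y
    push_cast
    rw [← intervalIntegral.integral_const_mul, ← intervalIntegral.integral_const_mul]
    refine intervalIntegral.integral_mono_on (by linarith)
      (by apply Continuous.intervalIntegrable; fun_prop)
      (by apply Continuous.intervalIntegrable; fun_prop) fun u hu => ?_
    have h1 : Real.exp (-(y : ℝ) / (2 * q)) ≤ 2 * Real.exp (-u / (2 * q)) := by
      have h2 : Real.exp (-(y : ℝ) / (2 * q)) =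
          Real.exp ((u - y) / (2 * q)) * Real.exp (-u / (2 * q)) := by
        rw [← Real.exp_add]; congr 1; field_simp; ring
      have h3 : Real.exp ((u - y) / (2 * q)) ≤ Real.exp (1 / (2 * q)) := by
        apply Real.exp_le_exp.2
        apply div_le_div_of_nonneg_right _ (by positivity)
        linarith [hu.2]
      rw [h2]
      exact mul_le_mul_of_nonneg_right (h3.trans hexp2) (Real.exp_pos _).le
    calc Real.exp (-(y : ℝ) / (2 * q)) * G u ≤ (2 * Real.exp (-u / (2 * q))) * G u :=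
          mul_le_mul_of_nonneg_right h1 (hG0 u)
      _ = 2 * f u := by rw [hf]; ring
  have s2 : ∑ y ∈ range N, ∫ u in (y : ℝ)..((y + 1 : ℕ) : ℝ), f u = ∫ u in (0 : ℝ)..N, f u := by
    have := intervalIntegral.sum_integral_adjacent_intervals (f := f) (μ := volume)
      (a := fun k : ℕ => (k : ℝ)) (n := N) (fun k _ => hfc.intervalIntegrable _ _)
    simpa using this
  have s3 : ∫ u in (0 : ℝ)..N, f u ≤ ∫ u in (0 : ℝ)..(N * P), f u := by
    refine intervalIntegral.integral_mono_interval le_rfl (Nat.cast_nonneg _) ?_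
      (Filter.Eventually.of_forall fun v => hf0 v) (hfc.intervalIntegrable _ _)
    have : (0 : ℝ) ≤ N := Nat.cast_nonneg _
    nlinarith
  have s4 : ∫ u in (0 : ℝ)..(N * P), f u = ∑ k ∈ range N, ∫ u in ((k : ℝ) * P)..(((k + 1 : ℕ) : ℝ) * P), f u := by
    have := intervalIntegral.sum_integral_adjacent_intervals (f := f) (μ := volume)
      (a := fun k : ℕ => (k : ℝ) * P) (n := N) (fun k _ => hfc.intervalIntegrable _ _)
    rw [this]
    simp
  have s5 : ∀ k : ℕ, ∫ u in ((k : ℝ) * P)..(((k + 1 : ℕ) : ℝ) * P), f u ≤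
      (1 / 2) ^ k * (3 * P * ∑ j ∈ s, ‖a j‖ ^ 2) := by
    intro k
    have h1 : ((k : ℝ) * P) ≤ (((k + 1 : ℕ) : ℝ) * P) := by
      push_cast; nlinarith
    have h2 : ∫ u in ((k : ℝ) * P)..(((k + 1 : ℕ) : ℝ) * P), f u ≤
        ∫ u in ((k : ℝ) * P)..(((k + 1 : ℕ) : ℝ) * P), (1 / 2) ^ k * G u := by
      refine intervalIntegral.integral_mono_on h1 (hfc.intervalIntegrable _ _)
        (by apply Continuous.intervalIntegrable; fun_prop) fun u hu => ?_
      refine mul_le_mul_of_nonneg_right ?_ (hG0 u)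
      have h3 : -u / (2 * q) ≤ (k : ℝ) * (-3) := by
        rw [div_le_iff₀ (by positivity)]
        have h4 := hu.1
        rw [hP] at h4
        have h5 : (0 : ℝ) ≤ k * q := by positivity
        nlinarith
      refine (Real.exp_le_exp.2 h3).trans ?_
      rw [Real.exp_nat_mul]
      refine pow_le_pow_left₀ (Real.exp_pos _).le ?_ k
      have h6 : (2 : ℝ) ≤ Real.exp 3 := by
        have := Real.add_one_le_exp (3 : ℝ)
        linarith
      rw [Real.exp_neg, inv_eq_one_div]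
      exact one_div_le_one_div_of_le (by norm_num) h6
    refine h2.trans ?_
    rw [intervalIntegral.integral_const_mul]
    refine mul_le_mul_of_nonneg_left ?_ (by positivity)
    have h7 : (((k + 1 : ℕ) : ℝ) * P) = (k : ℝ) * P + P := by push_cast; ring
    rw [h7, hGP.intervalIntegral_add_eq ((k : ℝ) * P) 0, zero_add]
    exact hint
  have hS0 : 0 ≤ ∑ j ∈ s, ‖a j‖ ^ 2 := Finset.sum_nonneg fun j _ => by positivity
  calc ∑ y ∈ range N, Real.exp (-(y : ℝ) / (2 * q)) * ∫ u in (y : ℝ)..(y + 1), G u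
      ≤ ∑ y ∈ range N, 2 * ∫ u in (y : ℝ)..((y + 1 : ℕ) : ℝ), f u :=
        Finset.sum_le_sum fun y _ => s1 y
    _ = 2 * ∫ u in (0 : ℝ)..N, f u := by rw [← Finset.mul_sum, s2]
    _ ≤ 2 * ∑ k ∈ range N, (1 / 2) ^ k * (3 * P * ∑ j ∈ s, ‖a j‖ ^ 2) := by
        refine mul_le_mul_of_nonneg_left ?_ (by norm_num)
        refine s3.trans ?_
        rw [s4]
        exact Finset.sum_le_sum fun k _ => s5 k
    _ = 2 * ((∑ k ∈ range N, (1 / (2 : ℝ)) ^ k) * (3 * P * ∑ j ∈ s, ‖a j‖ ^ 2)) := by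
        rw [Finset.sum_mul]
    _ ≤ 2 * (2 * (3 * P * ∑ j ∈ s, ‖a j‖ ^ 2)) := by
        refine mul_le_mul_of_nonneg_left ?_ (by norm_num)
        exact mul_le_mul_of_nonneg_right (sum_geometric_two_le N) (by positivity)
    _ ≤ 96 * q * ∑ j ∈ s, ‖a j‖ ^ 2 := by
        rw [hP]
        have h8 : 0 ≤ q * ∑ j ∈ s, ‖a j‖ ^ 2 := by positivity
        nlinarith

theorem log_ge {l n : ℕ} (hl : 3 ≤ l) (hn : InBlock l n) : (2 : ℝ) ^ l / 2 ≤ Real.log n := by
  have h1 : Nat.nth Nat.Prime (nn l) ≤ n :=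
    (hn.2 n.minFac (Nat.minFac_prime (by have := hn.1; omega)) (Nat.minFac_dvd n)).1.trans
      (Nat.minFac_le (by have := hn.1; omega))
  have h2 : ⌊Real.exp ((2 ^ l : ℕ) : ℝ)⌋₊ ≤ Nat.nth Nat.Prime (nn l) := by
    unfold nn NN Nat.primeCounting'
    exact Nat.le_nth_count Nat.infinite_setOfPred_prime _
  have h3 : Real.exp ((2 ^ l : ℕ) : ℝ) - 1 ≤ n := by
    have h4 := Nat.lt_floor_add_one (Real.exp ((2 ^ l : ℕ) : ℝ))
    have h5 : ((⌊Real.exp ((2 ^ l : ℕ) : ℝ)⌋₊ : ℕ) : ℝ) ≤ n := by exact_mod_cast h2.trans h1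
    linarith
  push_cast at h3
  have h8 : (8 : ℝ) ≤ 2 ^ l := by
    calc (8 : ℝ) = 2 ^ 3 := by norm_num
      _ ≤ 2 ^ l := pow_le_pow_right₀ (by norm_num) hl
  have h6 : (5 : ℝ) ≤ Real.exp (2 ^ l / 2) := by
    have := Real.add_one_le_exp ((2 : ℝ) ^ l / 2)
    linarith
  have h7 : Real.exp (2 ^ l) = Real.exp (2 ^ l / 2) * Real.exp (2 ^ l / 2) := by
    rw [← Real.exp_add]; congr 1; ring
  have h9 : Real.exp (2 ^ l / 2) ≤ n := by
    rw [h7] at h3
    nlinarith
  have h10 : (0 : ℝ) < n := by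
    have := hn.1
    exact_mod_cast (show 0 < n by omega)
  rw [Real.le_log_iff_exp_le h10]
  exact h9

theorem sls_of (h : SLD) : SLS := by
  obtain ⟨C, hC, hT⟩ := h
  refine ⟨96 * C, by positivity, ?_⟩
  intro l hl T hB ν x θ hx
  set q : ℝ := 2 ^ l with hq
  have hq1 : 1 ≤ q := one_le_pow₀ (by norm_num)
  have hq0 : 0 < q := by linarith
  have hqc : (q : ℂ) ≠ 0 := by exact_mod_cast hq0.ne'
  set s : Finset ℕ := range (2 ^ l + 1) with hs
  have hsq : ∀ j ∈ s, (j : ℝ) ≤ q := by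
    intro j hj
    rw [hs, Finset.mem_range] at hj
    rw [hq]
    exact_mod_cast (show j ≤ 2 ^ l by omega)
  -- pointwise
  have hpt : ∀ n ∈ T, ‖∑ j ∈ s, ν j * (n : ℂ) ^ (-(pt l x (θ + j / 2 ^ l)))‖ ^ 2 ≤
      Real.exp (-x) * ((n : ℝ) ^ (-(1 - 1 / (2 * q)) : ℝ) * ‖FF q s ν (Real.log n)‖ ^ 2) := by
    intro n hn
    have hn2 := (hB n hn).1
    have hn0 : (0 : ℝ) < n := by exact_mod_cast (show 0 < n by omega)
    have hnc : (n : ℂ) ≠ 0 := by exact_mod_cast (show n ≠ 0 by omega)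
    have hlog := log_ge hl (hB n hn)
    have e1 : ∑ j ∈ s, ν j * (n : ℂ) ^ (-(pt l x (θ + j / 2 ^ l))) =
        (n : ℂ) ^ (-(pt l x θ)) * FF q s ν (Real.log n) := by
      unfold FF
      rw [Finset.mul_sum]
      refine Finset.sum_congr rfl fun j _ => ?_
      have e2 : -(pt l x (θ + j / 2 ^ l)) = -(pt l x θ) + (-((j : ℂ) / q) * Complex.I) := by
        unfold pt
        rw [hq]
        push_cast
        ring
      rw [e2, Complex.cpow_add _ _ hnc]
      have e3 : (n : ℂ) ^ (-((j : ℂ) / q) * Complex.I) =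
          Complex.exp ((-((j : ℂ) / q) * Complex.I) * (Real.log n : ℝ)) := by
        rw [Complex.cpow_def_of_ne_zero hnc, Complex.natCast_log]
        congr 1
        ring
      rw [e3]
      ring
    rw [e1, norm_mul, mul_pow, ← mul_assoc]
    refine mul_le_mul_of_nonneg_right ?_ (by positivity)
    rw [Complex.norm_natCast_cpow_of_pos (by omega)]
    have e4 : (-(pt l x θ)).re = -(1 / 2 + x / q) := by
      unfold pt
      have e40 : (((1 / 2 + x / 2 ^ l : ℝ) : ℂ) + (θ : ℂ) * Complex.I).re = 1 / 2 + x / 2 ^ l := by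
        rw [Complex.add_re, Complex.ofReal_re, Complex.mul_I_re, Complex.ofReal_im]
        ring
      rw [Complex.neg_re, e40]
    rw [e4, ← Real.rpow_natCast, ← Real.rpow_mul hn0.le, Real.rpow_def_of_pos hn0,
      Real.rpow_def_of_pos hn0, ← Real.exp_add]
    apply Real.exp_le_exp.2
    push_cast
    have e5 : Real.log n * (-(1 / 2 + x / q) * 2) - Real.log n * (-(1 - 1 / (2 * q))) =
        -((2 * x + 1 / 2) * (Real.log n / q)) := by
      field_simp
      ring
    have e6 : 1 / 2 ≤ Real.log n / q := by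
      rw [le_div_iff₀ hq0]
      rw [hq]; linarith
    have e7 : (2 * x + 1 / 2) * (1 / 2) ≤ (2 * x + 1 / 2) * (Real.log n / q) :=
      mul_le_mul_of_nonneg_left e6 (by linarith)
    linarith
  refine (Finset.sum_le_sum hpt).trans ?_
  rw [← Finset.mul_sum]
  have hmain : ∑ n ∈ T, (n : ℝ) ^ (-(1 - 1 / (2 * q)) : ℝ) * ‖FF q s ν (Real.log n)‖ ^ 2 ≤
      96 * C * ∑ j ∈ s, ‖ν j‖ ^ 2 := by
    obtain ⟨N, hN⟩ : ∃ N : ℕ, ∀ n ∈ T, ⌊Real.log n⌋₊ ∈ range N := by
      refine ⟨T.sup (fun n => ⌊Real.log n⌋₊) + 1, fun n hn => ?_⟩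
      rw [Finset.mem_range]
      exact Nat.lt_succ_of_le (Finset.le_sup (f := fun n : ℕ => ⌊Real.log n⌋₊) hn)
    rw [← Finset.sum_fiberwise_of_maps_to hN]
    have hcl : ∀ y ∈ range N, ∑ n ∈ T.filter (fun n : ℕ => ⌊Real.log n⌋₊ = y),
        (n : ℝ) ^ (-(1 - 1 / (2 * q)) : ℝ) * ‖FF q s ν (Real.log n)‖ ^ 2 ≤
        C / q * (Real.exp (-(y : ℝ) / (2 * q)) *
          ∫ u in (y : ℝ)..(y + 1), (2 * ‖FF q s ν u‖ ^ 2 + ‖FF q s (da q ν) u‖ ^ 2)) := by
      intro y _
      have hmem : ∀ n ∈ T.filter (fun n : ℕ => ⌊Real.log n⌋₊ = y), (y : ℝ) ≤ Real.log n ∧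
          Real.log n ≤ y + 1 := by
        intro n hn
        rw [Finset.mem_filter] at hn
        have h0 : 0 ≤ Real.log n := Real.log_natCast_nonneg n
        have h1 := Nat.floor_le h0
        have h2 := Nat.lt_floor_add_one (Real.log n)
        rw [hn.2] at h1 h2
        exact ⟨h1, h2.le⟩
      have h3 := hT l hl (T.filter (fun n : ℕ => ⌊Real.log n⌋₊ = y))
        (fun n hn => hB n (Finset.mem_filter.1 hn).1) y hmem
      have hI0 : 0 ≤ ∫ u in (y : ℝ)..(y + 1), (2 * ‖FF q s ν u‖ ^ 2 + ‖FF q s (da q ν) u‖ ^ 2) :=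
        intervalIntegral.integral_nonneg (by linarith) fun u _ => by positivity
      have h4 : ∑ n ∈ T.filter (fun n : ℕ => ⌊Real.log n⌋₊ = y),
          (n : ℝ) ^ (-(1 - 1 / (2 * q)) : ℝ) * ‖FF q s ν (Real.log n)‖ ^ 2 ≤
          ∑ n ∈ T.filter (fun n : ℕ => ⌊Real.log n⌋₊ = y), (n : ℝ) ^ (-(1 - 1 / (2 * q)) : ℝ) *
          ∫ u in (y : ℝ)..(y + 1), (2 * ‖FF q s ν u‖ ^ 2 + ‖FF q s (da q ν) u‖ ^ 2) := by
        refine Finset.sum_le_sum fun n hn => ?_
        refine mul_le_mul_of_nonneg_left ?_ (by positivity)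
        exact gall (FF_deriv q s ν) (FF_cont q s ν) (FF_cont q s (da q ν)) y _ (hmem n hn).1
          (hmem n hn).2
      refine h4.trans ?_
      rw [← Finset.sum_mul, ← mul_assoc]
      exact mul_le_mul_of_nonneg_right h3 hI0
    refine (Finset.sum_le_sum hcl).trans ?_
    rw [← Finset.mul_sum]
    have h5 := mul_le_mul_of_nonneg_left (weighted hq1 s hsq ν N) (show 0 ≤ C / q by positivity)
    refine h5.trans (le_of_eq ?_)
    field_simp
  have hex := Real.exp_pos (-x)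
  calc _ ≤ Real.exp (-x) * (96 * C * ∑ j ∈ s, ‖ν j‖ ^ 2) := mul_le_mul_of_nonneg_left hmain hex.le
    _ = 96 * C * Real.exp (-x) * ∑ j ∈ s, ‖ν j‖ ^ 2 := by ring

end Pool.Agent.W462.EM
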